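import Mathlib
import Pool.Agent.Y322.IV.Stm2

/-!
# A billiard loop which comes back along its own line hits the boundary perpendicularly half way

`prove_retr : S_RETR`.
-/

set_option autoImplicit false

open Set

namespace Pool.Agent.Y515.IV

open Pool.Agent.Y322.IV

section
variable {E : Type} [NormedAddCommGroup E] [InnerProductSpace ℝ E]

/-- The reflection in the hyperplane orthogonal to `G`. -/
noncomputable def R (G v : E) : E := v - (2 * inner ℝ v G / ‖G‖ ^ 2) • G

theorem R_neg (G v : E) : R G (-v) = -R G v := by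
  unfold R
  rw [inner_neg_left]
  module

theorem R_invol {G : E} (hG : G ≠ 0) (v : E) : R G (R G v) = v := by
  have hn : ‖G‖ ^ 2 ≠ 0 := pow_ne_zero _ (norm_ne_zero_iff.2 hG)
  unfold R
  rw [inner_sub_left, real_inner_smul_left, real_inner_self_eq_norm_sq]
  have h1 : 2 * (inner ℝ v G - 2 * inner ℝ v G / ‖G‖ ^ 2 * ‖G‖ ^ 2) / ‖G‖ ^ 2
      = -(2 * inner ℝ v G / ‖G‖ ^ 2) := by
    field_simp
    ring
  rw [h1]
  module

/-- The two parametrisations of the same chord agree. -/
theorem chord {h : E → ℝ} {a b c u : E} {t t' : ℝ} (ht : 0 < t) (ht' : 0 < t')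
    (hb : b = a + t • u) (hc : c = a + t' • u) (hb0 : h b = 0) (hc0 : h c = 0)
    (h1 : ∀ s ∈ Ioo (0 : ℝ) t, h (a + s • u) < 0)
    (h2 : ∀ s ∈ Ioo (0 : ℝ) t', h (a + s • u) < 0) : b = c := by
  rcases lt_trichotomy t t' with hl | hl | hl
  · have := h2 t ⟨ht, hl⟩
    rw [← hb, hb0] at this
    exact absurd this (lt_irrefl _)
  · rw [hb, hc, hl]
  · have := h1 t' ⟨ht', hl⟩
    rw [← hc, hc0] at this
    exact absurd this (lt_irrefl _)

end

theorem prove_retr : S_RETR := by
  intro E _ _ _ h n p u hn hT hp hu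
  have : CompleteSpace E := FiniteDimensional.complete ℝ E
  obtain ⟨hA, hB⟩ := hT
  have hG : ∀ k ≤ n, gradient h (p k) ≠ 0 := by
    intro k hk h0
    have := (hA k hk).2.2
    rw [h0, inner_zero_right] at this
    exact lt_irrefl _ this
  have hR : ∀ k < n, u (k + 1) = R (gradient h (p (k + 1))) (u k) := fun k hk => (hB k hk).2
  have key : ∀ j, j < n → p (n - j) = p j ∧ u (n - 1 - j) = -u j := by
    intro j
    induction j with
    | zero => intro _; exact ⟨by simpa using hp, by simpa using hu⟩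
    | succ j ih =>
      intro hj
      obtain ⟨ih1, ih2⟩ := ih (by omega)
      obtain ⟨m', hm'⟩ : ∃ m', n = m' + j + 2 := ⟨n - j - 2, by omega⟩
      have e1 : n - j = m' + 1 + 1 := by omega
      have e2 : n - 1 - j = m' + 1 := by omega
      have e3 : n - (j + 1) = m' + 1 := by omega
      have e4 : n - 1 - (j + 1) = m' := by omega
      rw [e1] at ih1
      rw [e2] at ih2
      rw [e3, e4]
      obtain ⟨t, ht, hpt, hst⟩ := (hB (m' + 1) (by omega)).1
      obtain ⟨t', ht', hpt', hst'⟩ := (hB j (by omega)).1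
      rw [ih1, ih2] at hpt
      rw [ih2] at hst
      have hpm : p (m' + 1) = p j + t • u j := by
        rw [hpt]; module
      have hst2 : ∀ s ∈ Ioo (0 : ℝ) t, h (p j + s • u j) < 0 := by
        intro s hs
        have h1 := hst (t - s) ⟨by linarith [hs.2], by linarith [hs.1]⟩
        have h2 : p (m' + 1) + (t - s) • -u j = p j + s • u j := by
          rw [hpm]; module
        rwa [h2] at h1
      have hpeq : p (m' + 1) = p (j + 1) :=
        chord ht ht' hpm hpt' (hA _ (by omega)).1 (hA _ (by omega)).1 hst2 hst'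
      refine ⟨hpeq, ?_⟩
      have h1 := hR m' (by omega)
      have h2 := hR j (by omega)
      have hg := hG (m' + 1) (by omega)
      have h3 : u m' = R (gradient h (p (m' + 1))) (u (m' + 1)) := by
        rw [h1, R_invol hg]
      rw [h3, ih2, R_neg, hpeq, ← h2]
  rcases Nat.even_or_odd' n with ⟨r, hr | hr⟩
  · refine ⟨r, by omega, hr, ?_⟩
    obtain ⟨-, h1⟩ := key r (by omega)
    obtain ⟨q, hq⟩ : ∃ q, r = q + 1 := ⟨r - 1, by omega⟩
    have e1 : n - 1 - r = q := by omega
    rw [e1] at h1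
    have h2 := hR q (by omega)
    rw [h1, R_neg, ← hq] at h2
    obtain ⟨-, hn1, hin⟩ := hA r (by omega)
    have hg := hG r (by omega)
    set G := gradient h (p r) with hGdef
    have hgn : 0 < ‖G‖ := norm_pos_iff.2 hg
    unfold R at h2
    have h3 : u r = (inner ℝ (u r) G / ‖G‖ ^ 2) • G := by
      have h4 : (2 : ℝ) • u r = (2 : ℝ) • ((inner ℝ (u r) G / ‖G‖ ^ 2) • G) := by
        calc (2 : ℝ) • u r = u r + u r := two_smul _ _
          _ = u r + -(u r - (2 * inner ℝ (u r) G / ‖G‖ ^ 2) • G) := by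
            rw [← h2]
          _ = (2 * inner ℝ (u r) G / ‖G‖ ^ 2) • G := by abel
          _ = (2 : ℝ) • ((inner ℝ (u r) G / ‖G‖ ^ 2) • G) := by
            rw [smul_smul]; congr 1; ring
      exact smul_right_injective E (two_ne_zero : (2 : ℝ) ≠ 0) h4
    have h5 : |inner ℝ (u r) G / ‖G‖ ^ 2| * ‖G‖ = 1 := by
      rw [← Real.norm_eq_abs, ← norm_smul, ← h3, hn1]
    have hneg : inner ℝ (u r) G / ‖G‖ ^ 2 < 0 := div_neg_of_neg_of_pos hin (by positivity)
    rw [abs_of_neg hneg] at h5
    have h6 : inner ℝ (u r) G / ‖G‖ ^ 2 = -‖G‖⁻¹ := by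
      rw [eq_neg_iff_add_eq_zero]
      field_simp at h5 ⊢
      linarith
    rw [h3, h6, neg_smul]
  · exfalso
    obtain ⟨-, h1⟩ := key r (by omega)
    have e1 : n - 1 - r = r := by omega
    rw [e1] at h1
    have hn1 := (hA r (by omega)).2.1
    have h0 : u r = 0 := by
      have h2 : (2 : ℝ) • u r = 0 := by
        rw [two_smul]
        nth_rewrite 2 [h1]
        exact add_neg_cancel _
      exact (smul_eq_zero.1 h2).resolve_left two_ne_zero
    rw [h0, norm_zero] at hn1
    exact zero_ne_one hn1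

end Pool.Agent.Y515.IV
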